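import Mathlib

set_option autoImplicit false
set_option linter.unusedSectionVars false

open Set Filter Topology Bundle
open scoped Manifold ContDiff

noncomputable section

namespace Pool.Agent.H877Z.Ori

/-- sign of a real number as a unit of the integers -/
def sg (t : ℝ) : ℤˣ := if 0 < t then 1 else -1

theorem sg_mul {s t : ℝ} (hs : s ≠ 0) (ht : t ≠ 0) : sg (s * t) = sg s * sg t := by
  unfold sg
  rcases lt_or_gt_of_ne hs with h | h <;> rcases lt_or_gt_of_ne ht with h' | h'
  · have := mul_pos_of_neg_of_neg h h'
    simp [this, not_lt.2 h.le, not_lt.2 h'.le]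
  · have := mul_neg_of_neg_of_pos h h'
    simp [not_lt.2 this.le, not_lt.2 h.le, h']
  · have := mul_neg_of_pos_of_neg h h'
    simp [not_lt.2 this.le, not_lt.2 h'.le, h]
  · have := mul_pos h h'
    simp [this, h, h']

theorem sg_one : sg 1 = 1 := by simp [sg]

theorem sg_neg_one : sg (-1) = -1 := by simp [sg]

theorem continuousAt_sg {t : ℝ} (ht : t ≠ 0) : ContinuousAt sg t := by
  rcases lt_or_gt_of_ne ht with h | h
  · refine (continuousAt_const (y := (-1 : ℤˣ))).congr ?_
    filter_upwards [Iio_mem_nhds h] with s hs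
    simp [sg, not_lt.2 (le_of_lt (show s < 0 from hs))]
  · refine (continuousAt_const (y := (1 : ℤˣ))).congr ?_
    filter_upwards [Ioi_mem_nhds h] with s hs
    simp [sg, show 0 < s from hs]

variable {E : Type} [NormedAddCommGroup E] [NormedSpace ℝ E] [FiniteDimensional ℝ E]

theorem det_comp' (A B : E →L[ℝ] E) : (A ∘L B).det = A.det * B.det := by
  unfold ContinuousLinearMap.det
  rw [← LinearMap.det_comp]
  rfl

theorem det_id' : (ContinuousLinearMap.id ℝ E).det = 1 := by
  unfold ContinuousLinearMap.det
  exact LinearMap.det_id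

section core

variable {H : Type} [TopologicalSpace H] (I : ModelWithCorners ℝ E H)
  (M : Type) [TopologicalSpace M] [ChartedSpace H M] [IsManifold I 1 M]

theorem cc_comp (i j k : atlas H M) {x : M} (hi : x ∈ i.1.source) (hj : x ∈ j.1.source)
    (hk : x ∈ k.1.source) :
    (tangentBundleCore I M).coordChange j k x ∘L (tangentBundleCore I M).coordChange i j x =
      (tangentBundleCore I M).coordChange i k x := by
  ext v
  exact (tangentBundleCore I M).coordChange_comp i j k x ⟨⟨hi, hj⟩, hk⟩ v

theorem cc_self (i : atlas H M) {x : M} (hi : x ∈ i.1.source) :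
    (tangentBundleCore I M).coordChange i i x = ContinuousLinearMap.id ℝ E := by
  ext v
  exact (tangentBundleCore I M).coordChange_self i x hi v

theorem cc_det_ne (i j : atlas H M) {x : M} (hi : x ∈ i.1.source) (hj : x ∈ j.1.source) :
    ((tangentBundleCore I M).coordChange i j x).det ≠ 0 := by
  have h := congrArg ContinuousLinearMap.det (cc_comp I M i j i hi hj hi)
  rw [det_comp', cc_self I M i hi, det_id'] at h
  exact right_ne_zero_of_mul_eq_one h

/-- the orientation bundle -/
def oriCore : FiberBundleCore (atlas H M) M ℤˣ where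
  baseSet i := i.1.source
  isOpen_baseSet i := i.1.open_source
  indexAt := achart H
  mem_baseSet_at := mem_chart_source H
  coordChange i j x v := sg ((tangentBundleCore I M).coordChange i j x).det * v
  coordChange_self i x hx v := by rw [cc_self I M i hx, det_id', sg_one, one_mul]
  continuousOn_coordChange i j := by
    refine ContinuousOn.mul ?_ continuousOn_snd
    have h1 : ContinuousOn (fun x : M => sg ((tangentBundleCore I M).coordChange i j x).det)
        (i.1.source ∩ j.1.source) := by
      intro x hx
      exact (continuousAt_sg (cc_det_ne I M i j hx.1 hx.2)).comp_continuousWithinAt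
        (f := fun x : M => ((tangentBundleCore I M).coordChange i j x).det)
        (ContinuousLinearMap.continuous_det.continuousAt.comp_continuousWithinAt
          ((tangentBundleCore I M).continuousOn_coordChange i j x hx))
    exact h1.comp continuousOn_fst (fun p hp => hp.1)
  coordChange_comp i j k x hx v := by
    rw [← mul_assoc, ← sg_mul (cc_det_ne I M j k hx.1.2 hx.2) (cc_det_ne I M i j hx.1.1 hx.1.2),
      ← det_comp', cc_comp I M i j k hx.1.1 hx.1.2 hx.2]

/-- the orientation double cover -/
abbrev OC : Type := Bundle.TotalSpace ℤˣ (oriCore I M).Fiber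

/-- its projection -/
def pr : OC I M → M := Bundle.TotalSpace.proj

/-- the sign coordinate -/
def fib (p : OC I M) : ℤˣ := p.2

/-- a point of the cover -/
def mkO (x : M) (e : ℤˣ) : OC I M := ⟨x, e⟩

theorem mkO_fib (p : OC I M) : mkO I M (pr I M p) (fib I M p) = p := rfl

theorem fib_mkO (x : M) (e : ℤˣ) : fib I M (mkO I M x e) = e := rfl

theorem pr_mkO (x : M) (e : ℤˣ) : pr I M (mkO I M x e) = x := rfl

theorem pr_cov : IsCoveringMap (pr I M) := FiberBundle.isCoveringMap

theorem pr_loc : IsLocalHomeomorph (pr I M) := (pr_cov I M).isLocalHomeomorph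

instance [T2Space M] : T2Space (OC I M) := by
  refine ⟨fun p q hpq => ?_⟩
  by_cases h : pr I M p = pr I M q
  · exact (pr_cov I M).isSeparatedMap p q h hpq
  · exact separated_by_continuous (pr_cov I M).continuous h

/-- the chart of the cover at a point -/
def ocChart (p : OC I M) : OpenPartialHomeomorph (OC I M) H :=
  ((pr_loc I M).localInverseAt p).symm.trans (chartAt H (pr I M p))

theorem ocChart_coe (p : OC I M) : ⇑(ocChart I M p) = chartAt H (pr I M p) ∘ pr I M := by
  simp [ocChart]

instance : ChartedSpace H (OC I M) where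
  atlas := range (ocChart I M)
  chartAt := ocChart I M
  mem_chart_source p := by simp [ocChart]
  chart_mem_atlas p := mem_range_self p

theorem chartAt_oc (p : OC I M) : chartAt H p = ocChart I M p := rfl

theorem extChartAt_oc (p : OC I M) :
    ⇑(extChartAt I p) = extChartAt I (pr I M p) ∘ pr I M := by
  rw [extChartAt_coe, extChartAt_coe, chartAt_oc, ocChart_coe]
  rfl

theorem pr_ocChart_symm (p : OC I M) {y : H} (hy : y ∈ (ocChart I M p).target) :
    pr I M ((ocChart I M p).symm y) = (chartAt H (pr I M p)).symm y := by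
  simp only [ocChart, OpenPartialHomeomorph.trans_target, mem_inter_iff, mem_preimage,
    OpenPartialHomeomorph.symm_target] at hy
  simp only [ocChart, OpenPartialHomeomorph.coe_trans_symm, OpenPartialHomeomorph.symm_symm,
    Function.comp_apply]
  exact (pr_loc I M).apply_localInverseAt_of_mem hy.2

theorem ocChart_target_sub (p : OC I M) :
    (ocChart I M p).target ⊆ (chartAt H (pr I M p)).target := by
  simp only [ocChart, OpenPartialHomeomorph.trans_target]
  exact inter_subset_left

theorem ocChart_source_sub (p : OC I M) {q : OC I M} (hq : q ∈ (ocChart I M p).source) :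
    pr I M q ∈ (chartAt H (pr I M p)).source := by
  simp only [ocChart, OpenPartialHomeomorph.trans_source, mem_inter_iff, mem_preimage] at hq
  simpa using hq.2

theorem isManifold_oc (n : WithTop ℕ∞) [IsManifold I n M] : IsManifold I n (OC I M) := by
  refine isManifold_of_contDiffOn I n (OC I M) ?_
  rintro e e' ⟨p, rfl⟩ ⟨q, rfl⟩
  have h := (contDiffGroupoid n I).compatible (chart_mem_atlas H (pr I M p))
    (chart_mem_atlas H (pr I M q))
  rw [contDiffGroupoid, mem_groupoid_of_pregroupoid] at h
  have h1 := h.1
  simp only [contDiffPregroupoid] at h1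
  refine (h1.mono ?_).congr ?_
  · rintro z ⟨hz, hz'⟩
    refine ⟨?_, hz'⟩
    simp only [OpenPartialHomeomorph.trans_source, OpenPartialHomeomorph.symm_source,
      mem_preimage, mem_inter_iff] at hz ⊢
    refine ⟨ocChart_target_sub I M p hz.1, ?_⟩
    rw [← pr_ocChart_symm I M p hz.1]
    exact ocChart_source_sub I M q hz.2
  · rintro z ⟨hz, -⟩
    simp only [OpenPartialHomeomorph.trans_source, OpenPartialHomeomorph.symm_source,
      mem_preimage, mem_inter_iff] at hz
    simp only [Function.comp_apply, OpenPartialHomeomorph.coe_trans, ocChart_coe]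
    rw [pr_ocChart_symm I M p hz.1]

instance : IsManifold I 1 (OC I M) := isManifold_oc I M 1

theorem boundaryless_oc [BoundarylessManifold I M] : BoundarylessManifold I (OC I M) where
  isInteriorPoint' p := by
    have h := BoundarylessManifold.isInteriorPoint (I := I) (x := pr I M p)
    unfold ModelWithCorners.IsInteriorPoint at h ⊢
    rw [extChartAt_oc]
    exact h

theorem written_pr (p : OC I M) :
    writtenInExtChartAt I I p (pr I M) =ᶠ[𝓝[range I] (extChartAt I p p)] id := by
  filter_upwards [extChartAt_target_mem_nhdsWithin (I := I) p] with z hz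
  have h := (extChartAt I p).right_inv hz
  rw [extChartAt_oc] at h
  exact h

theorem contMDiff_pr (n : WithTop ℕ∞) : ContMDiff I I n (pr I M) := by
  intro p
  rw [contMDiffAt_iff]
  refine ⟨(pr_cov I M).continuous.continuousAt, ?_⟩
  refine contDiffWithinAt_id.congr_of_eventuallyEq (written_pr I M p) ?_
  exact (written_pr I M p).eq_of_nhdsWithin (extChartAt_target_subset_range p (mem_extChartAt_target p))

theorem hasMFDerivAt_pr (p : OC I M) :
    HasMFDerivAt I I (pr I M) p (ContinuousLinearMap.id ℝ E) := by
  refine ⟨(pr_cov I M).continuous.continuousAt, ?_⟩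
  refine (hasFDerivWithinAt_id _ _).congr_of_eventuallyEq (written_pr I M p) ?_
  exact (written_pr I M p).eq_of_nhdsWithin (extChartAt_target_subset_range p (mem_extChartAt_target p))

theorem contMDiff_into {E' H' X : Type} [NormedAddCommGroup E'] [NormedSpace ℝ E']
    [TopologicalSpace H'] {J : ModelWithCorners ℝ E' H'} [TopologicalSpace X] [ChartedSpace H' X]
    {n : WithTop ℕ∞} {g : X → OC I M} (hg : Continuous g) (h : ContMDiff J I n (pr I M ∘ g)) :
    ContMDiff J I n g := by
  intro x
  have h1 := h x
  rw [contMDiffAt_iff_target] at h1 ⊢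
  refine ⟨hg.continuousAt, ?_⟩
  rw [extChartAt_oc]
  exact h1.2

end core

section lift

variable {H : Type} [TopologicalSpace H] (I : ModelWithCorners ℝ E H)
  {M : Type} [TopologicalSpace M] [ChartedSpace H M] [IsManifold I 1 M]
  {H' : Type} [TopologicalSpace H'] (I' : ModelWithCorners ℝ E H')
  {M' : Type} [TopologicalSpace M'] [ChartedSpace H' M'] [IsManifold I' 1 M']

/-- the Jacobian determinant in the preferred charts -/
def jac (f : M → M') (x : M) : ℝ :=
  ContinuousLinearMap.det (show E →L[ℝ] E from mfderiv I I' f x)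

/-- the canonical lift of a local diffeomorphism -/
def lift (f : M → M') (p : OC I M) : OC I' M' :=
  mkO I' M' (f (pr I M p)) (sg (jac I I' f (pr I M p)) * fib I M p)

theorem pr_lift (f : M → M') (p : OC I M) : pr I' M' (lift I I' f p) = f (pr I M p) := rfl

theorem continuous_lift {f : M → M'} (hf : ContMDiff I I' 1 f) (hj : ∀ x, jac I I' f x ≠ 0) :
    Continuous (lift I I' f) := by
  refine continuous_iff_continuousAt.2 fun p₀ => ?_
  rw [FiberBundle.continuousAt_totalSpace]
  have hp : Continuous (fun p : OC I M => p.1) := (pr_cov I M).continuous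
  refine ⟨(hf.continuous.comp hp).continuousAt, ?_⟩
  have h1 : ContinuousAt (fun p : OC I M => (trivializationAt ℤˣ (oriCore I M).Fiber p₀.1 p).2) p₀ :=
    ((FiberBundle.continuousAt_totalSpace (F := ℤˣ) (fun p : OC I M => p)).1 continuousAt_id).2
  have h2 : ContinuousAt (inTangentCoordinates I I' id f (mfderiv I I' f) p₀.1) p₀.1 :=
    (ContMDiffAt.mfderiv_const (m := 0) (hf p₀.1) (by simp)).continuousAt
  have hdet : ∀ x : M, x ∈ (chartAt H p₀.1).source → f x ∈ (chartAt H' (f p₀.1)).source →
      (inTangentCoordinates I I' id f (mfderiv I I' f) p₀.1 x).det =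
        ((tangentBundleCore I' M').coordChange (achart H' (f x)) (achart H' (f p₀.1)) (f x)).det *
          (jac I I' f x *
          ((tangentBundleCore I M).coordChange (achart H p₀.1) (achart H x) x).det) := by
    intro x hx hy
    have := inTangentCoordinates_eq (I := I) (I' := I') id f (mfderiv I I' f) (x₀ := p₀.1) (x := x)
      hx hy
    refine (congrArg ContinuousLinearMap.det this).trans ?_
    refine (det_comp' _ _).trans ?_
    congr 1
    exact det_comp' _ _
  have h3 : (inTangentCoordinates I I' id f (mfderiv I I' f) p₀.1 p₀.1).det ≠ 0 := by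
    rw [hdet _ (mem_chart_source _ _) (mem_chart_source _ _)]
    exact mul_ne_zero (cc_det_ne I' M' _ _ (mem_chart_source _ _) (mem_chart_source _ _))
      (mul_ne_zero (hj _) (cc_det_ne I M _ _ (mem_chart_source _ _) (mem_chart_source _ _)))
  have h4 : ContinuousAt (fun p : OC I M =>
      sg (inTangentCoordinates I I' id f (mfderiv I I' f) p₀.1 p.1).det) p₀ := by
    refine (continuousAt_sg h3).comp (f := fun p : OC I M =>
      (inTangentCoordinates I I' id f (mfderiv I I' f) p₀.1 p.1).det) ?_
    exact ContinuousLinearMap.continuous_det.continuousAt.comp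
      (ContinuousAt.comp (f := fun p : OC I M => p.1) h2 hp.continuousAt)
  refine (h4.mul h1).congr ?_
  have e1 : ∀ᶠ p : OC I M in 𝓝 p₀, p.1 ∈ (chartAt H p₀.1).source :=
    hp.continuousAt.preimage_mem_nhds (chart_source_mem_nhds H p₀.1)
  have e2 : ∀ᶠ p : OC I M in 𝓝 p₀, f p.1 ∈ (chartAt H' (f p₀.1)).source :=
    (hf.continuous.comp hp).continuousAt.preimage_mem_nhds (chart_source_mem_nhds H' (f p₀.1))
  filter_upwards [e1, e2] with p hx hy
  have a1 := cc_det_ne I' M' (achart H' (f p.1)) (achart H' (f p₀.1)) (mem_chart_source _ _) hy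
  have a2 := cc_det_ne I M (achart H p₀.1) (achart H p.1) hx (mem_chart_source _ _)
  have a3 := cc_det_ne I M (achart H p.1) (achart H p₀.1) (mem_chart_source _ _) hx
  have a4 : sg ((tangentBundleCore I M).coordChange (achart H p₀.1) (achart H p.1) p.1).det *
      sg ((tangentBundleCore I M).coordChange (achart H p.1) (achart H p₀.1) p.1).det = 1 := by
    rw [← sg_mul a2 a3, ← det_comp', cc_comp I M _ _ _ (mem_chart_source _ _) hx
      (mem_chart_source _ _), cc_self I M _ (mem_chart_source _ _), det_id', sg_one]
  change sg (inTangentCoordinates I I' id f (mfderiv I I' f) p₀.1 p.1).det *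
      (sg ((tangentBundleCore I M).coordChange (achart H p.1) (achart H p₀.1) p.1).det *
        fib I M p) =
    sg ((tangentBundleCore I' M').coordChange (achart H' (f p.1)) (achart H' (f p₀.1)) (f p.1)).det *
      (sg (jac I I' f p.1) * fib I M p)
  rw [hdet _ hx hy, sg_mul a1 (mul_ne_zero (hj _) a2), sg_mul (hj _) a2, mul_assoc, mul_assoc,
    ← mul_assoc (sg ((tangentBundleCore I M).coordChange (achart H p₀.1) (achart H p.1) p.1).det),
    a4, one_mul]

variable {H'' : Type} [TopologicalSpace H''] (I'' : ModelWithCorners ℝ E H'')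
  {M'' : Type} [TopologicalSpace M''] [ChartedSpace H'' M''] [IsManifold I'' 1 M'']

omit [IsManifold I 1 M] [IsManifold I' 1 M'] [IsManifold I'' 1 M''] in
theorem jac_comp {g : M' → M''} {f : M → M'} {x : M} (hg : MDifferentiableAt I' I'' g (f x))
    (hf : MDifferentiableAt I I' f x) :
    jac I I'' (g ∘ f) x = jac I' I'' g (f x) * jac I I' f x := by
  unfold jac
  rw [mfderiv_comp x hg hf]
  exact det_comp' _ _

omit [IsManifold I 1 M] in
theorem jac_id (x : M) : jac I I (id : M → M) x = 1 := by
  unfold jac
  rw [mfderiv_id]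
  exact det_id'

omit [IsManifold I 1 M] [IsManifold I' 1 M'] in
theorem jac_ne_of_inv {g : M' → M} {f : M → M'} {x : M} (hg : MDifferentiableAt I' I g (f x))
    (hf : MDifferentiableAt I I' f x) (h : g ∘ f = id) : jac I I' f x ≠ 0 := by
  have h1 := jac_comp I I' I hg hf
  rw [h, jac_id] at h1
  exact right_ne_zero_of_mul_eq_one h1.symm

theorem lift_id : lift I I (id : M → M) = id := by
  funext p
  simp only [lift, jac_id, sg_one, one_mul]
  rfl

theorem lift_comp {g : M' → M''} {f : M → M'} (hg : MDifferentiable I' I'' g)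
    (hf : MDifferentiable I I' f) (jg : ∀ x, jac I' I'' g x ≠ 0) (jf : ∀ x, jac I I' f x ≠ 0) :
    lift I I'' (g ∘ f) = lift I' I'' g ∘ lift I I' f := by
  funext p
  simp only [lift, Function.comp_apply, pr_mkO, fib_mkO]
  rw [jac_comp I I' I'' (hg _) (hf _), sg_mul (jg _) (jf _), mul_assoc]

theorem jac_pr (p : OC I M) : jac I I (pr I M) p = 1 := by
  unfold jac
  rw [(hasMFDerivAt_pr I M p).mfderiv]
  exact det_id'

end lift

section main

variable {H : Type} [TopologicalSpace H] (I : ModelWithCorners ℝ E H)
  (M : Type) [TopologicalSpace M] [ChartedSpace H M] [IsManifold I 1 M]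

/-- faithful actions lift to the orientation cover -/
theorem lift_action {k : WithTop ℕ∞} (hk : 1 ≤ k) {G : Type*} [Group G] (ρ : G →* Equiv.Perm M)
    (hρ : Function.Injective ρ) (hs : ∀ g, ContMDiff I I k (ρ g)) :
    ∃ σ : G →* Equiv.Perm (OC I M), Function.Injective σ ∧ ∀ g, ContMDiff I I k (σ g) := by
  have hk0 : k ≠ 0 := by
    rintro rfl
    exact absurd hk (by simp)
  have hd : ∀ g, MDifferentiable I I (ρ g) := fun g => (hs g).mdifferentiable hk0
  have hmul : ∀ g h : G, (ρ (g * h) : M → M) = ρ g ∘ ρ h := by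
    intro g h
    rw [map_mul]
    rfl
  have hone : (ρ 1 : M → M) = id := by
    rw [map_one]
    rfl
  have hj : ∀ g x, jac I I (ρ g) x ≠ 0 := by
    intro g x
    refine jac_ne_of_inv I I (g := ρ g⁻¹) (hd _ _) (hd _ _) ?_
    rw [← hmul, inv_mul_cancel, hone]
  have hl : ∀ g h : G, lift I I (ρ (g * h)) = lift I I (ρ g) ∘ lift I I (ρ h) := by
    intro g h
    rw [hmul, lift_comp I I I (hd _) (hd _) (hj _) (hj _)]
  have hl1 : lift I I (ρ 1) = id := by rw [hone, lift_id]
  let F : G →* Function.End (OC I M) :=
    { toFun := fun g => lift I I (ρ g)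
      map_one' := hl1
      map_mul' := hl }
  let σ : G →* Equiv.Perm (OC I M) := F.toHomPerm
  have hσ : ∀ g, (σ g : OC I M → OC I M) = lift I I (ρ g) := fun g => rfl
  refine ⟨σ, ?_, ?_⟩
  · rw [injective_iff_map_eq_one]
    intro g hg
    apply hρ
    rw [map_one]
    ext x
    have h1 := congrFun (hσ g) (mkO I M x 1)
    rw [hg] at h1
    exact (congrArg (pr I M) h1).symm
  · intro g
    rw [hσ]
    refine contMDiff_into I M (continuous_lift I I ((hs g).of_le hk) (hj g)) ?_
    exact (hs g).comp (contMDiff_pr I M k)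

/-- a manifold with connected orientation cover is not diffeomorphic to that cover -/
theorem not_diffeo [Nonempty M] [PreconnectedSpace (OC I M)] {k : WithTop ℕ∞} (hk : 1 ≤ k) :
    IsEmpty (Diffeomorph I I M (OC I M) k) := by
  refine ⟨fun φ => ?_⟩
  have hk0 : k ≠ 0 := by
    rintro rfl
    exact absurd hk (by simp)
  have hφ : ContMDiff I I 1 φ := φ.contMDiff.of_le hk
  have h1 : ContMDiff I I 1 (pr I M ∘ φ) := (contMDiff_pr I M 1).comp hφ
  have hj : ∀ x, jac I I (pr I M ∘ φ) x ≠ 0 := by
    intro x
    rw [jac_comp I I I (hasMFDerivAt_pr I M _).mdifferentiableAt (φ.mdifferentiable hk0 x),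
      jac_pr, one_mul]
    refine jac_ne_of_inv I I (g := φ.symm) (φ.symm.mdifferentiable hk0 _)
      (φ.mdifferentiable hk0 x) ?_
    funext y
    simp
  obtain ⟨x⟩ := ‹Nonempty M›
  let s : ℤˣ := sg (jac I I (pr I M ∘ φ) x)
  let e : ℤˣ := fib I M (φ x)
  have heq : lift I I (pr I M ∘ φ) = φ ∘ pr I M := by
    refine (pr_cov I M).eq_of_comp_eq (continuous_lift I I h1 hj)
      (φ.continuous.comp (pr_cov I M).continuous) rfl (mkO I M x (s⁻¹ * e)) ?_
    change mkO I M (pr I M (φ x)) (s * (s⁻¹ * e)) = φ x
    rw [mul_inv_cancel_left]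
    rfl
  have a1 := congrFun heq (mkO I M x 1)
  have a2 := congrFun heq (mkO I M x (-1))
  have a4 : s * 1 = s * -1 := congrArg (fib I M) (a1.trans a2.symm)
  have a5 := mul_left_cancel a4
  exact absurd a5 (by decide)

end main

end Pool.Agent.H877Z.Ori
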