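import Pool.Agent.H877Z.Ori.Cover

set_option autoImplicit false

open Set Filter Topology Bundle
open scoped Manifold ContDiff

noncomputable section

namespace Pool.Agent.H877Z.Ori

/-- the plane -/
abbrev E2 : Type := EuclideanSpace ℝ (Fin 2)

/-- the Klein bottle group -/
@[ext] structure KG where
  a : ℤ
  b : ℤ

instance : Group KG where
  mul g h := ⟨g.a + h.a, (g.a.negOnePow : ℤ) * h.b + g.b⟩
  one := ⟨0, 0⟩
  inv g := ⟨-g.a, -((g.a.negOnePow : ℤ) * g.b)⟩
  mul_assoc g h k := by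
    refine KG.ext ?_ ?_
    · exact add_assoc _ _ _
    · change (((g.a + h.a).negOnePow : ℤˣ) : ℤ) * k.b + ((g.a.negOnePow : ℤ) * h.b + g.b) =
        (g.a.negOnePow : ℤ) * ((h.a.negOnePow : ℤ) * k.b + h.b) + g.b
      rw [Int.negOnePow_add, Units.val_mul]
      ring
  one_mul g := by
    refine KG.ext ?_ ?_
    · exact zero_add _
    · change (((0 : ℤ).negOnePow : ℤˣ) : ℤ) * g.b + 0 = g.b
      simp
  mul_one g := by
    refine KG.ext ?_ ?_
    · exact add_zero _
    · change ((g.a.negOnePow : ℤˣ) : ℤ) * 0 + g.b = g.b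
      simp
  inv_mul_cancel g := by
    refine KG.ext ?_ ?_
    · exact neg_add_cancel _
    · change (((-g.a).negOnePow : ℤˣ) : ℤ) * g.b + -((g.a.negOnePow : ℤ) * g.b) = 0
      simp

/-- the sign of a group element -/
def KG.s (g : KG) : ℝ := ((g.a.negOnePow : ℤ) : ℝ)

theorem KG.abs_s (g : KG) : |g.s| = 1 := by
  unfold KG.s
  rw [← Int.cast_abs, Int.abs_negOnePow, Int.cast_one]

/-- the action on the plane -/
def act (g : KG) (p : E2) : E2 := !₂[p 0 + g.a, g.s * p 1 + g.b]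

@[simp] theorem act0 (g : KG) (p : E2) : act g p 0 = p 0 + g.a := rfl
@[simp] theorem act1 (g : KG) (p : E2) : act g p 1 = g.s * p 1 + g.b := rfl

theorem ext2 {p q : E2} (h0 : p 0 = q 0) (h1 : p 1 = q 1) : p = q := by
  ext i
  fin_cases i
  · exact h0
  · exact h1

instance : MulAction KG E2 where
  smul := act
  one_smul p := by
    refine ext2 ?_ ?_
    · change p 0 + ((0 : ℤ) : ℝ) = p 0
      simp
    · change ((((0 : ℤ).negOnePow : ℤˣ) : ℤ) : ℝ) * p 1 + ((0 : ℤ) : ℝ) = p 1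
      simp
  mul_smul g h p := by
    refine ext2 ?_ ?_
    · change p 0 + ((g.a + h.a : ℤ) : ℝ) = p 0 + h.a + g.a
      push_cast
      ring
    · change ((((g.a + h.a).negOnePow : ℤˣ) : ℤ) : ℝ) * p 1 +
        (((g.a.negOnePow : ℤ) * h.b + g.b : ℤ) : ℝ) = g.s * (h.s * p 1 + h.b) + g.b
      rw [Int.negOnePow_add, Units.val_mul]
      simp only [KG.s]
      push_cast
      ring

theorem smul_def (g : KG) (p : E2) : g • p = act g p := rfl

theorem contDiff_act (g : KG) {n : WithTop ℕ∞} : ContDiff ℝ n (act g) := by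
  rw [contDiff_euclidean]
  intro i
  fin_cases i
  · change ContDiff ℝ n (fun p : E2 => p 0 + (g.a : ℝ))
    fun_prop
  · change ContDiff ℝ n (fun p : E2 => g.s * p 1 + (g.b : ℝ))
    fun_prop

instance : ContinuousConstSMul KG E2 := ⟨fun g => (contDiff_act g (n := 0)).continuous⟩

instance : IsCancelSMul KG E2 where
  left_cancel' g _ _ h := MulAction.injective g h
  right_cancel' g h p e := by
    have h0 : p 0 + (g.a : ℝ) = p 0 + h.a := congrArg (fun q : E2 => q 0) e
    have h1 : g.s * p 1 + (g.b : ℝ) = h.s * p 1 + h.b := congrArg (fun q : E2 => q 1) e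
    have ha : g.a = h.a := Int.cast_injective (α := ℝ) (add_left_cancel h0)
    have hs : g.s = h.s := by simp only [KG.s, ha]
    rw [hs] at h1
    exact KG.ext ha (Int.cast_injective (α := ℝ) (add_left_cancel h1))

theorem abs_le_norm2 (p : E2) (i : Fin 2) : |p i| ≤ ‖p‖ := by
  simpa using PiLp.norm_apply_le p i

instance : ProperlyDiscontinuousSMul KG E2 where
  finite_disjoint_inter_image {K L} hK hL := by
    obtain ⟨R, hR⟩ := (hK.union hL).isBounded.exists_norm_le
    obtain ⟨N, hN⟩ := exists_nat_ge (2 * R)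
    have hf : ((fun x : ℤ × ℤ => (⟨x.1, x.2⟩ : KG)) ''
        (Icc (-(N : ℤ)) N ×ˢ Icc (-(N : ℤ)) N)).Finite :=
      ((finite_Icc _ _).prod (finite_Icc _ _)).image _
    refine hf.subset ?_
    rintro g ⟨q, ⟨p, hp, rfl⟩, hq⟩
    have b1 := hR p (Or.inl hp)
    have b2 := hR _ (Or.inr hq)
    have c0 := (abs_le_norm2 p 0).trans b1
    have c1 := (abs_le_norm2 p 1).trans b1
    have d0 : |p 0 + (g.a : ℝ)| ≤ R := (abs_le_norm2 (g • p) 0).trans b2
    have d1 : |g.s * p 1 + (g.b : ℝ)| ≤ R := (abs_le_norm2 (g • p) 1).trans b2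
    have c1' : |g.s * p 1| ≤ R := by rw [abs_mul, g.abs_s, one_mul]; exact c1
    rw [abs_le] at c0 c1' d0 d1
    refine ⟨(g.a, g.b), ⟨⟨?_, ?_⟩, ⟨?_, ?_⟩⟩, rfl⟩
    · have : (-(N : ℝ)) ≤ g.a := by linarith [c0.2, d0.1]
      exact_mod_cast this
    · have : (g.a : ℝ) ≤ N := by linarith [c0.1, d0.2]
      exact_mod_cast this
    · have : (-(N : ℝ)) ≤ g.b := by linarith [c1'.2, d1.1]
      exact_mod_cast this
    · have : (g.b : ℝ) ≤ N := by linarith [c1'.1, d1.2]
      exact_mod_cast this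

/-- the Klein bottle -/
def KB : Type := Quotient (MulAction.orbitRel KG E2)

instance : TopologicalSpace KB :=
  inferInstanceAs (TopologicalSpace (Quotient (MulAction.orbitRel KG E2)))

instance : T2Space KB := inferInstanceAs (T2Space (Quotient (MulAction.orbitRel KG E2)))

/-- the quotient map -/
def qk : E2 → KB := Quotient.mk (MulAction.orbitRel KG E2)

theorem qk_loc : IsLocalHomeomorph qk :=
  (isQuotientCoveringMap_quotientMk_of_properlyDiscontinuousSMul
    (G := KG) (E := E2)).isCoveringMap.isLocalHomeomorph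

theorem qk_surj : Function.Surjective qk := Quotient.mk_surjective

theorem qk_act (g : KG) (p : E2) : qk (act g p) = qk p :=
  Quotient.sound (MulAction.orbitRel_apply.2 ⟨g, rfl⟩)

theorem exists_act {p q : E2} (h : qk p = qk q) : ∃ g : KG, act g q = p :=
  MulAction.orbitRel_apply.1 (Quotient.exact h)

theorem qk_box (x : KB) : ∃ p ∈ Metric.closedBall (0 : E2) 2, qk p = x := by
  obtain ⟨p, rfl⟩ := qk_surj x
  let g : KG := ⟨-⌊p 0⌋, 0⟩
  let q := act g p
  let h : KG := ⟨0, -⌊q 1⌋⟩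
  refine ⟨act h q, ?_, by rw [qk_act, qk_act]⟩
  have e0 : act h q 0 = Int.fract (p 0) := by
    change p 0 + ((-⌊p 0⌋ : ℤ) : ℝ) + ((0 : ℤ) : ℝ) = _
    simp [Int.fract, sub_eq_add_neg]
  have e1 : act h q 1 = Int.fract (q 1) := by
    change ((((0 : ℤ).negOnePow : ℤˣ) : ℤ) : ℝ) * q 1 + ((-⌊q 1⌋ : ℤ) : ℝ) = _
    simp [Int.fract, sub_eq_add_neg]
  rw [mem_closedBall_zero_iff, EuclideanSpace.norm_eq, Fin.sum_univ_two, e0, e1]
  rw [Real.sqrt_le_iff]
  refine ⟨by norm_num, ?_⟩
  have a1 := Int.fract_nonneg (p 0)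
  have a2 := Int.fract_lt_one (p 0)
  have a3 := Int.fract_nonneg (q 1)
  have a4 := Int.fract_lt_one (q 1)
  rw [Real.norm_of_nonneg a1, Real.norm_of_nonneg a3]
  nlinarith

instance : CompactSpace KB := by
  refine ⟨?_⟩
  have : (univ : Set KB) = qk '' Metric.closedBall (0 : E2) 2 := by
    ext x
    simpa using qk_box x
  rw [this]
  exact (isCompact_closedBall _ _).image qk_loc.continuous

instance : ConnectedSpace KB := qk_surj.connectedSpace qk_loc.continuous

/-- exponential in the first coordinate -/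
def ex (p : E2) : E2 := !₂[Real.exp (p 0), p 1]

/-- logarithm in the first coordinate -/
def lg (p : E2) : E2 := !₂[Real.log (p 0), p 1]

theorem ex0 (p : E2) : ex p 0 = Real.exp (p 0) := rfl

theorem lg_ex (p : E2) : lg (ex p) = p := ext2 (Real.log_exp _) rfl

theorem ex_lg {p : E2} (h : 0 < p 0) : ex (lg p) = p := ext2 (Real.exp_log h) rfl

theorem contDiff_ex {n : WithTop ℕ∞} : ContDiff ℝ n ex := by
  rw [contDiff_euclidean]
  intro i
  fin_cases i
  · change ContDiff ℝ n (fun p : E2 => Real.exp (p 0))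
    fun_prop
  · change ContDiff ℝ n (fun p : E2 => p 1)
    fun_prop

theorem contDiffAt_lg {n : WithTop ℕ∞} {p : E2} (h : 0 < p 0) : ContDiffAt ℝ n lg p := by
  rw [contDiffAt_euclidean]
  intro i
  fin_cases i
  · change ContDiffAt ℝ n (fun p : E2 => Real.log (p 0)) p
    exact ContDiffAt.log (by fun_prop) h.ne'
  · change ContDiffAt ℝ n (fun p : E2 => p 1) p
    fun_prop

/-- the plane as the interior of the half plane -/
def io : OpenPartialHomeomorph E2 (EuclideanHalfSpace 2) where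
  toFun p := ⟨ex p, (Real.exp_pos _).le⟩
  invFun z := lg z.1
  source := univ
  target := {z | 0 < z.1 0}
  map_source' p _ := Real.exp_pos _
  map_target' _ _ := mem_univ _
  left_inv' p _ := lg_ex p
  right_inv' z hz := Subtype.ext (ex_lg hz)
  open_source := isOpen_univ
  open_target := isOpen_lt continuous_const
    ((PiLp.continuous_apply 2 _ 0).comp continuous_subtype_val)
  continuousOn_toFun := ((contDiff_ex (n := 0)).continuous.subtype_mk _).continuousOn
  continuousOn_invFun z hz :=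
    ((contDiffAt_lg (n := 0) hz).continuousAt.comp
      continuous_subtype_val.continuousAt).continuousWithinAt

/-- charts of the Klein bottle -/
def kChart (p : E2) : OpenPartialHomeomorph KB (EuclideanHalfSpace 2) :=
  (qk_loc.localInverseAt p).trans io

/-- a section of the quotient map -/
def sec (x : KB) : E2 := (qk_surj x).choose

theorem qk_sec (x : KB) : qk (sec x) = x := (qk_surj x).choose_spec

instance : ChartedSpace (EuclideanHalfSpace 2) KB where
  atlas := range kChart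
  chartAt x := kChart (sec x)
  mem_chart_source x := by
    have := qk_loc.apply_self_mem_localInverseAt_source (x := sec x)
    rw [qk_sec] at this
    exact ⟨this, mem_univ _⟩
  chart_mem_atlas x := mem_range_self _

theorem local_act (p z : E2) (hz : qk z ∈ (qk_loc.localInverseAt p).source) :
    ∃ g : KG, (fun w => qk_loc.localInverseAt p (qk w)) =ᶠ[𝓝 z] act g := by
  obtain ⟨g, hg⟩ := exists_act (qk_loc.apply_localInverseAt_of_mem hz)
  refine ⟨g, ?_⟩
  have c1 : ∀ᶠ w in 𝓝 z, qk w ∈ (qk_loc.localInverseAt p).source :=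
    qk_loc.continuous.continuousAt.preimage_mem_nhds
      ((qk_loc.localInverseAt p).open_source.mem_nhds hz)
  have c2 : ∀ᶠ w in 𝓝 z, act g w ∈ (qk_loc.localInverseAt p).target := by
    refine (contDiff_act g (n := 0)).continuous.continuousAt.preimage_mem_nhds
      ((qk_loc.localInverseAt p).open_target.mem_nhds ?_)
    rw [hg]
    exact (qk_loc.localInverseAt p).map_source hz
  filter_upwards [c1, c2] with w h1 h2
  refine qk_loc.injOn_localInverseAt_target ((qk_loc.localInverseAt p).map_source h1) h2 ?_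
  rw [qk_loc.apply_localInverseAt_of_mem h1, qk_act]

theorem kChart_symm (p : E2) (z : EuclideanHalfSpace 2) : (kChart p).symm z = qk (lg z.1) := by
  simp only [kChart, OpenPartialHomeomorph.coe_trans_symm, Function.comp_apply,
    IsLocalHomeomorph.localInverseAt_symm]
  rfl

theorem kChart_val (p : E2) (x : KB) :
    (𝓡∂ 2) (kChart p x) = ex (qk_loc.localInverseAt p x) := rfl

instance (n : WithTop ℕ∞) : IsManifold (𝓡∂ 2) n KB := by
  refine isManifold_of_contDiffOn (𝓡∂ 2) n KB ?_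
  rintro e e' ⟨p, rfl⟩ ⟨q, rfl⟩ z ⟨hz, ⟨z', rfl⟩⟩
  simp only [OpenPartialHomeomorph.trans_source, OpenPartialHomeomorph.symm_source,
    mem_preimage, mem_inter_iff, ModelWithCorners.left_inv] at hz
  have hpos : 0 < z'.1 0 := hz.1.1
  have h2 := hz.2
  rw [kChart_symm] at h2
  obtain ⟨g, hg⟩ := local_act q (lg z'.1) h2.1
  have hc : ContDiffAt ℝ n (fun w => ex (act g (lg w))) z'.1 :=
    contDiff_ex.contDiffAt.comp _ ((contDiff_act g).contDiffAt.comp _ (contDiffAt_lg hpos))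
  have hev : ∀ᶠ w in 𝓝 z'.1, qk_loc.localInverseAt q (qk (lg w)) = act g (lg w) :=
    (contDiffAt_lg (n := 0) hpos).continuousAt.eventually hg
  have key : ∀ w : E2, w ∈ range (𝓡∂ 2) → qk_loc.localInverseAt q (qk (lg w)) = act g (lg w) →
      ((𝓡∂ 2) ∘ ((kChart p).symm.trans (kChart q)) ∘ (𝓡∂ 2).symm) w = ex (act g (lg w)) := by
    rintro w ⟨w', rfl⟩ hw
    simp only [Function.comp_apply, OpenPartialHomeomorph.coe_trans, ModelWithCorners.left_inv]
    rw [kChart_val, kChart_symm]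
    exact congrArg ex hw
  refine hc.contDiffWithinAt.congr_of_eventuallyEq ?_ (key _ (mem_range_self _) hev.self_of_nhds)
  filter_upwards [nhdsWithin_le_nhds hev, self_mem_nhdsWithin] with w h1 h2
  exact key w h2.2 h1

theorem extChartAt_kb (x y : KB) :
    extChartAt (𝓡∂ 2) x y = ex (qk_loc.localInverseAt (sec x) y) := rfl

instance : BoundarylessManifold (𝓡∂ 2) KB where
  isInteriorPoint' x := by
    unfold ModelWithCorners.IsInteriorPoint
    rw [interior_range_modelWithCornersEuclideanHalfSpace, extChartAt_kb]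
    exact Real.exp_pos _

theorem written_qk (z : E2) : ∃ g : KG,
    (extChartAt (𝓡∂ 2) (qk z) ∘ qk) =ᶠ[𝓝 z] fun w => ex (act g w) := by
  obtain ⟨g, hg⟩ := local_act (sec (qk z)) z (mem_chart_source (EuclideanHalfSpace 2) (qk z)).1
  refine ⟨g, ?_⟩
  filter_upwards [hg] with w hw
  rw [Function.comp_apply, extChartAt_kb, hw]

theorem contMDiff_qk {n : WithTop ℕ∞} : ContMDiff 𝓘(ℝ, E2) (𝓡∂ 2) n qk := by
  intro z
  rw [contMDiffAt_iff_target]
  refine ⟨qk_loc.continuous.continuousAt, ?_⟩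
  obtain ⟨g, hg⟩ := written_qk z
  refine ContMDiffAt.congr_of_eventuallyEq ?_ hg
  exact (contDiff_ex.comp (contDiff_act g)).contDiffAt.contMDiffAt

theorem jac_qk (z : E2) : jac 𝓘(ℝ, E2) (𝓡∂ 2) qk z ≠ 0 := by
  obtain ⟨g, hg⟩ := written_qk z
  have d1 : MDifferentiableAt 𝓘(ℝ, E2) (𝓡∂ 2) qk z :=
    (contMDiff_qk (n := 1) z).mdifferentiableAt one_ne_zero
  have d2 : MDifferentiableAt (𝓡∂ 2) 𝓘(ℝ, E2) (extChartAt (𝓡∂ 2) (qk z)) (qk z) :=
    (contMDiffAt_extChartAt (n := 1)).mdifferentiableAt one_ne_zero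
  have h1 := jac_comp 𝓘(ℝ, E2) (𝓡∂ 2) 𝓘(ℝ, E2) d2 d1
  have h2 : jac 𝓘(ℝ, E2) 𝓘(ℝ, E2) (extChartAt (𝓡∂ 2) (qk z) ∘ qk) z =
      jac 𝓘(ℝ, E2) 𝓘(ℝ, E2) (fun w => ex (act g w)) z := by
    unfold jac
    rw [hg.mfderiv_eq]
  have h3 : jac 𝓘(ℝ, E2) 𝓘(ℝ, E2) (fun w => ex (act g w)) z ≠ 0 := by
    refine jac_ne_of_inv 𝓘(ℝ, E2) 𝓘(ℝ, E2) (g := fun w => act g⁻¹ (lg w)) ?_ ?_ ?_
    · exact (((contDiff_act g⁻¹ (n := 1)).contDiffAt.comp _
        (contDiffAt_lg (Real.exp_pos _))).contMDiffAt).mdifferentiableAt one_ne_zero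
    · exact ((contDiff_ex.comp (contDiff_act g (n := 1))).contDiffAt.contMDiffAt).mdifferentiableAt
        one_ne_zero
    · funext w
      simp only [Function.comp_apply, lg_ex, id]
      exact inv_smul_smul g w
  rw [← h2, h1] at h3
  exact right_ne_zero_of_mul h3

/-- the glide reflection -/
def gl : KG := ⟨1, 0⟩

/-- its linear part -/
def rf : E2 →L[ℝ] E2 :=
  LinearMap.toContinuousLinearMap (Matrix.toLpLin 2 2 !![(1 : ℝ), 0; 0, -1])

theorem act_gl (p : E2) : act gl p = rf p + !₂[1, 0] := by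
  refine ext2 ?_ ?_
  · simp [rf, gl, Matrix.toLpLin_apply, Matrix.mulVec, dotProduct, Fin.sum_univ_two]
  · simp [rf, gl, KG.s, Matrix.toLpLin_apply, Matrix.mulVec, dotProduct, Fin.sum_univ_two]

theorem det_rf : rf.det = -1 := by
  unfold ContinuousLinearMap.det rf
  rw [LinearMap.coe_toContinuousLinearMap, Matrix.toLpLin_eq_toLin, LinearMap.det_toLin,
    Matrix.det_fin_two]
  simp

theorem jac_gl (z : E2) : jac 𝓘(ℝ, E2) 𝓘(ℝ, E2) (act gl) z = -1 := by
  unfold jac
  have : HasFDerivAt (act gl) rf z := by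
    have h := rf.hasFDerivAt (x := z) |>.add_const !₂[1, 0]
    refine h.congr_of_eventuallyEq (Eventually.of_forall fun w => act_gl w)
  rw [mfderiv_eq_fderiv, this.fderiv]
  exact det_rf

/-- the oriented frames coming from the plane -/
def sig (p : E2) : OC (𝓡∂ 2) KB := lift 𝓘(ℝ, E2) (𝓡∂ 2) qk (mkO 𝓘(ℝ, E2) E2 p 1)

theorem continuous_sig : Continuous sig := by
  refine (continuous_lift _ _ contMDiff_qk jac_qk).comp ?_
  refine (oriCore 𝓘(ℝ, E2) E2).continuous_const_section 1 ?_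
  intro i j x _
  change sg ((tangentBundleCore 𝓘(ℝ, E2) E2).coordChange i j x).det * 1 = 1
  have hi : i = achart E2 x := Subtype.ext (mem_singleton_iff.1 i.2)
  have hj : j = achart E2 x := Subtype.ext (mem_singleton_iff.1 j.2)
  rw [hi, hj, cc_self _ _ _ (mem_chart_source _ _), det_id', sg_one, one_mul]

theorem sig_eq (p : E2) :
    sig p = mkO (𝓡∂ 2) KB (qk p) (sg (jac 𝓘(ℝ, E2) (𝓡∂ 2) qk p)) := by
  simp only [sig, lift, pr_mkO, fib_mkO, mul_one]

theorem sig_gl (p : E2) :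
    sig (act gl p) = mkO (𝓡∂ 2) KB (qk p) (-sg (jac 𝓘(ℝ, E2) (𝓡∂ 2) qk p)) := by
  rw [sig_eq, qk_act]
  congr 1
  have h : qk ∘ act gl = qk := funext (qk_act gl)
  have d1 : MDifferentiableAt 𝓘(ℝ, E2) (𝓡∂ 2) qk (act gl p) :=
    (contMDiff_qk (n := 1) _).mdifferentiableAt one_ne_zero
  have d2 : MDifferentiableAt 𝓘(ℝ, E2) 𝓘(ℝ, E2) (act gl) p :=
    ((contDiff_act gl (n := 1)).contDiffAt.contMDiffAt).mdifferentiableAt one_ne_zero
  have h1 := jac_comp 𝓘(ℝ, E2) 𝓘(ℝ, E2) (𝓡∂ 2) d1 d2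
  rw [h, jac_gl] at h1
  rw [h1, sg_mul (jac_qk _) (by norm_num), sg_neg_one]
  simp

theorem sig_box (q : OC (𝓡∂ 2) KB) :
    q ∈ sig '' (Metric.closedBall (0 : E2) 2 ∪ act gl '' Metric.closedBall (0 : E2) 2) := by
  obtain ⟨p, hp, hq⟩ := qk_box (pr _ _ q)
  rw [← mkO_fib _ _ q, ← hq]
  have hu : ∀ u v : ℤˣ, u = v ∨ u = -v := by decide
  rcases hu (fib _ _ q) (sg (jac 𝓘(ℝ, E2) (𝓡∂ 2) qk p)) with h | h
  · exact ⟨p, Or.inl hp, by rw [sig_eq, h]⟩
  · exact ⟨act gl p, Or.inr ⟨p, hp, rfl⟩, by rw [sig_gl, h]⟩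

instance : CompactSpace (OC (𝓡∂ 2) KB) := by
  refine ⟨?_⟩
  rw [← eq_univ_of_forall sig_box]
  exact ((isCompact_closedBall _ _).union ((isCompact_closedBall _ _).image
    (contDiff_act gl (n := 0)).continuous)).image continuous_sig

instance : ConnectedSpace (OC (𝓡∂ 2) KB) := by
  refine Function.Surjective.connectedSpace (f := sig) (fun q => ?_) continuous_sig
  obtain ⟨p, -, hp⟩ := sig_box q
  exact ⟨p, hp⟩

end Pool.Agent.H877Z.Ori
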