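import Pool.Agent.H877Z.Ori.Klein

set_option autoImplicit false

open scoped Manifold ContDiff

namespace Pool.Agent.H877Z.Ori

theorem no_detect (k : ℕ∞) (hk : 1 ≤ k) (G : Type*) [Group G] :
    ¬ ∀ (N : Type) [TopologicalSpace N] [T2Space N] [CompactSpace N] [ConnectedSpace N]
      [ChartedSpace (EuclideanHalfSpace 2) N] [IsManifold (𝓡∂ 2) ((⊤ : ℕ∞) : WithTop ℕ∞) N],
      BoundarylessManifold (𝓡∂ 2) N →
      ((∃ ρ : G →* Equiv.Perm N, Function.Injective ρ ∧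
          ∀ g : G, ContMDiff (𝓡∂ 2) (𝓡∂ 2) (k : WithTop ℕ∞) (ρ g)) ↔
        Nonempty (Diffeomorph (𝓡∂ 2) (𝓡∂ 2) KB N (k : WithTop ℕ∞))) := by
  intro h
  have hk' : (1 : WithTop ℕ∞) ≤ (k : WithTop ℕ∞) := by exact_mod_cast hk
  obtain ⟨ρ, hρ, hs⟩ := (h KB inferInstance).2 ⟨Diffeomorph.refl _ _ _⟩
  haveI := isManifold_oc (𝓡∂ 2) KB ((⊤ : ℕ∞) : WithTop ℕ∞)
  obtain ⟨φ⟩ := (h (OC (𝓡∂ 2) KB) (boundaryless_oc _ _)).1 (lift_action (𝓡∂ 2) KB hk' ρ hρ hs)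
  exact (not_diffeo (𝓡∂ 2) KB hk').false φ

end Pool.Agent.H877Z.Ori
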